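import Pool.Agent.H994R2.JL.Fin2
import Pool.Agent.H994R2.JL.AP
import Pool.Agent.H994R2.JL.CO
import Pool.Agent.H994R2.JL.ME
import Pool.Agent.H994R2.JL.UN
import Pool.Agent.H994R2.JL.LP
import Pool.Agent.H994R2.JL.BP
import Pool.Agent.H994R2.JL.NA
import Pool.Agent.H994R2.JL.NB
import Pool.Agent.H994R2.JL.NC
import Pool.Agent.H994R2.JL.PA
import Pool.Agent.H994R2.JL.DI

/-!
# Constant-depth circuits do not learn DNF formulas with few terms

The negative answer to Q1 for learning procedures (learner followed by the evaluation of its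
hypothesis at a fresh point) that are computed by polynomial-size circuits of constant depth.
-/

/-- Let `s` be any function that tends to infinity, no matter how slowly.  For all constants
`c, d` and `η > 0` and all large `m`, for every number `N` of labelled examples and every circuit
of depth at most `d` with at most `m ^ c` nodes, whose leaves may be arbitrary functions of all
labels, all random bits and `c` attributes of the examples, there is a DNF formula with at most
`s m` terms, each with at most `s m` literals, whose value at a fresh uniform point the circuit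
guesses with probability at most `1 / 2 + η`. -/
theorem Pool.Agent.Results.MP_cba12a_lc.ConstantDepthPredictors.result (s : ℕ → ℕ)
    (hs : Filter.Tendsto s Filter.atTop Filter.atTop) (c d : ℕ) (η : ℝ) (hη : 0 < η) :
    ∀ᶠ m in Filter.atTop, ∀ (N R : ℕ) (P : DNFPrediction.Predictor m N R),
      P.circuit.depth ≤ d → P.nodes ≤ m ^ c → (∀ e, (P.reads e).card ≤ c) →
      ∃ F : DNFPrediction.DNF m, F.card ≤ s m ∧ (∀ t ∈ F, t.card ≤ s m) ∧
        P.success F.eval ≤ 1 / 2 + η :=
  Pool.Agent.H994R2.JL.predictor_main
    (Pool.Agent.H994R2.JL.stub_AP Pool.Agent.H994R2.JL.stub_CO Pool.Agent.H994R2.JL.stub_ME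
      Pool.Agent.H994R2.JL.stub_U1 Pool.Agent.H994R2.JL.stub_U3
      (Pool.Agent.H994R2.JL.stub_LP Pool.Agent.H994R2.JL.stub_BP Pool.Agent.H994R2.JL.stub_U2))
    Pool.Agent.H994R2.JL.stub_NA Pool.Agent.H994R2.JL.stub_NB Pool.Agent.H994R2.JL.stub_NC
    Pool.Agent.H994R2.JL.stub_PA Pool.Agent.H994R2.JL.stub_DI s hs c d η hη
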