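import Pool.Agent.H685R2.RK.Learn

/-!
For every `k`, DNF formulas in which every variable occurs in at most `k` terms (with arbitrary
signs) are learnable in polynomial time from uniform random examples.

The algorithm works with the negative examples only. `V` is the least set of variables such that
no variable outside `V` is constant on the negative examples that agree with one of them on `V`
and on at most `10 k` further variables. It has `O(log (n / ε))` elements. Given the values on `V`,
the short terms are split by the local lemma: for a term `C` that is not redundant there are a
negative example `a` that violates only one literal of `C`, at the variable `x`, and a set `Z` of
at most `k` variables with the following property. Among the negative examples that agree with `a`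
on `V` and `Z` and differ from it in `y`, the value of `x` is independent of the rest if `y` is in
`C`, and it is correlated, with a gap that is at least inverse polynomial, for all but
`O(log (n / ε))` other variables `y`. So for all `a`, `x`, `Z` the variables `y` with a small
empirical correlation are collected, and all their subsets give the candidate terms. The candidates
that are true at a negative example are discarded. The frequencies of all patterns are uniformly
close to their probabilities, by Chernoff bounds.
-/

namespace Pool.Agent.Results.MP_cba12a_lc.ReadKDNF

open Pool.Agent.H685R2.RK

/-- For every `k`, the class of the read-`k` DNF formulas is learnable in polynomial time from
uniform random examples. -/
theorem result (k : ℕ) : UniformLearnable (fun n => {f | ∃ φ : DNF n, φ.ReadK k ∧ f = φ.eval}) :=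
  Pool.Agent.NPC.H685RK.learnable k

end Pool.Agent.Results.MP_cba12a_lc.ReadKDNF
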